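import Pool.Agent.N877.P15.R
import Pool.Agent.N855.P15.AA5

/-!
# (R) for the ternary form of X_0(15): the number of vectors and its parity
-/

set_option autoImplicit false

namespace Pool.Agent.N877.P15

/-- **(R)** -/
theorem t_R : Pool.Agent.N969.P15.S_R := by
  intro n hsq h4 h5 h3
  obtain ⟨N, h1, h2⟩ := t_R1 hsq h4 h5 h3
  refine ⟨3 * (N : ℤ), ?_, ?_⟩
  · rw [h1]
    ring
  · rw [← Pool.Agent.N855.P15.aa5 hsq h4 h5]
    have h3' : Odd (3 * (N : ℤ)) ↔ Odd N := by
      rw [Int.odd_mul]
      constructor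
      · rintro ⟨-, h⟩
        exact_mod_cast h
      · intro h
        exact ⟨by decide, by exact_mod_cast h⟩
    rw [h3', h2]
    rfl

end Pool.Agent.N877.P15
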