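import Mathlib

/-!
# The ambiguous factorizations
-/

set_option autoImplicit false

namespace Pool.Agent.N877.P15

open Finset

/-- the factorizations `n = r s`, `r < s`, with `-5 s` a square modulo `r` and `-5 r` a square
modulo `s` -/
def AA5 (n : ℕ) : Finset ℕ := n.divisors.filter fun r => r * r < n ∧
  (∀ p ∈ r.primeFactors, jacobiSym (-5 * ((n / r : ℕ) : ℤ)) p = 1) ∧
  (∀ p ∈ (n / r).primeFactors, jacobiSym (-5 * (r : ℤ)) p = 1)

end Pool.Agent.N877.P15
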