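import Pool.Agent.N877.P15.Tors2
import Pool.Agent.N877.P15.Defs
import Pool.Agent.N877.TF.Amb
import Pool.Agent.N969.P15.Defs

/-!
# The number of vectors of the lattice and the number of forms in one genus
-/

set_option autoImplicit false

namespace Pool.Agent.N877.P15

open Finset Pool.Agent.N877.TF Pool.Agent.N969.P15

theorem ip_nm (v : V) : ip v v = S15.nm v := by
  rw [nm15]; simp only [ip]; ring

theorem mem_vec' (n : ℕ) (v : V) : v ∈ Pool.Agent.N969.P15.vec n ↔ S15.nm v = n := by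
  rw [Pool.Agent.N969.P15.vec, mem_filter, Fintype.mem_piFinset, ip_nm]
  refine ⟨fun h => h.2, fun h => ⟨fun i => ?_, h⟩⟩
  rw [nm15] at h
  have e : v 0 ^ 2 + (v 0 - v 1) ^ 2 + (v 0 - v 2) ^ 2 + 3 * v 1 ^ 2 + 3 * v 2 ^ 2 +
      3 * (v 1 - v 2) ^ 2 = n := by rw [← h]; ring
  have a0 := sq_nonneg (v 0)
  have a1 := sq_nonneg (v 1)
  have a2 := sq_nonneg (v 2)
  have a3 := sq_nonneg (v 0 - v 1)
  have a4 := sq_nonneg (v 0 - v 2)
  have a5 := sq_nonneg (v 1 - v 2)
  have key : ∀ x : ℤ, x ^ 2 ≤ n → -(n : ℤ) ≤ x ∧ x ≤ n := by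
    intro x hx
    constructor <;> nlinarith [sq_nonneg x, sq_nonneg (x + 1), sq_nonneg (x - 1)]
  rw [mem_Icc]
  fin_cases i
  · exact key _ (by show v 0 ^ 2 ≤ n; linarith)
  · exact key _ (by show v 1 ^ 2 ≤ n; linarith)
  · exact key _ (by show v 2 ^ 2 ≤ n; linarith)

theorem jac5 {n p : ℕ} (h4 : n % 4 = 3) (hp : p.Prime) (hpn : p ∣ n) (x : ℤ) :
    jacobiSym (-(2 * 10 * x)) p = jacobiSym (-5 * x) p := by
  have h2 : jacobiSym ((2 : ℤ) ^ 2) p = 1 := by
    apply jacobiSym.sq_one'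
    have h3 : ¬ p ∣ 2 := not_dvd_two h4 hp hpn
    have : IsCoprime (2 : ℤ) (p : ℤ) := by
      rw [isCoprime_comm]
      exact (Prime.coprime_iff_not_dvd (Nat.prime_iff_prime_int.1 hp)).2
        (fun h => h3 (by exact_mod_cast h))
    exact Int.isCoprime_iff_gcd_eq_one.1 this
  have : -(2 * 10 * x) = (-5 * x) * 2 ^ 2 := by ring
  rw [this, jacobiSym.mul_left, h2, mul_one]

theorem AF_eq {n : ℕ} (h4 : n % 4 = 3) : AF n 10 = AA5 n := by
  unfold AF AA5
  refine Finset.filter_congr fun r hr => ?_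
  have hrn := Nat.dvd_of_mem_divisors hr
  refine and_congr_right fun _ => and_congr ?_ ?_
  · refine forall₂_congr fun p hp => ?_
    rw [jac5 h4 (Nat.prime_of_mem_primeFactors hp) ((Nat.dvd_of_mem_primeFactors hp).trans hrn)]
  · refine forall₂_congr fun p hp => ?_
    rw [jac5 h4 (Nat.prime_of_mem_primeFactors hp)
      ((Nat.dvd_of_mem_primeFactors hp).trans (Nat.div_dvd_of_dvd hrn))]

/-- R: the number of vectors of norm `n` -/
theorem t_R1 {n : ℕ} (hsq : Squarefree n) (h4 : n % 4 = 3) (h5 : n % 5 = 2 ∨ n % 5 = 3)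
    (h3 : 3 < n) : ∃ N : ℕ, rr n = 3 * 2 ^ n.primeFactors.card * N ∧
      (Odd N ↔ Odd (AA5 n).card) := by
  have hodd : Odd n := Nat.odd_iff.2 (by omega)
  have hcop : IsCoprime S15.d (n : ℤ) := by
    rw [d15]
    have : Nat.Coprime 10 n := by
      rw [show 10 = 2 * 5 by norm_num]
      refine Nat.Coprime.mul_left ?_ ?_
      · exact (Nat.Prime.coprime_iff_not_dvd Nat.prime_two).2 (by omega)
      · exact (Nat.Prime.coprime_iff_not_dvd (by norm_num)).2 (by omega)
    exact_mod_cast Nat.isCoprime_iff_coprime.2 this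
  refine ⟨((Rd n).filter fun g => Gc n 10 g).card, ?_, ?_⟩
  · have h := card_vec S15 pos15 tors15 (by norm_num) (by rw [d15]; norm_num) hsq hodd
      (by omega) hcop (mem_vec' n) (fun _ _ u _ => even15 u)
    rw [d15] at h
    have h' : (2 : ℤ) * (vec n).card = 2 * (3 * 2 ^ n.primeFactors.card *
        ((Rd n).filter fun g => Gc n 10 g).card) := by
      have : ((2 * (vec n).card : ℕ) : ℤ) = ((6 * 2 ^ n.primeFactors.card *
        ((Rd n).filter fun g => Gc n 10 g).card : ℕ) : ℤ) := by rw [h]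
      push_cast at this
      rw [this]; ring
    exact mul_left_cancel₀ two_ne_zero h'
  · rw [card_parity hodd, card_amb hsq h4 (by omega), AF_eq h4]

end Pool.Agent.N877.P15
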