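import Pool.Agent.N877.TF.Uniq

/-!
# The ternary lattice of discriminant `10`: class number one and the rotations

`F = [[4,1,1],[1,2,1],[1,1,2]]`, whose adjugate is `[[3,-1,-1],[-1,7,-3],[-1,-3,7]]`.
-/

set_option autoImplicit false

namespace Pool.Agent.N877.P15

open Finset Matrix Pool.Agent.N877.TF

/-- the coefficients of the lattice of discriminant `10` -/
def S15 : Co := ⟨4, 2, 2, 1, 1, 1⟩

theorem B15 (v w : V) : S15.B v w = 4 * (v 0 * w 0) + 2 * (v 1 * w 1) + 2 * (v 2 * w 2) +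
    (v 0 * w 1 + v 1 * w 0) + (v 0 * w 2 + v 2 * w 0) + (v 1 * w 2 + v 2 * w 1) := by
  simp only [S15, Co.B]; ring

theorem nm15 (v : V) : S15.nm v = 3 * v 0 ^ 2 + 7 * v 1 ^ 2 + 7 * v 2 ^ 2 - 2 * (v 0 * v 1) -
    2 * (v 0 * v 2) - 6 * (v 1 * v 2) := by
  simp only [S15, Co.nm]; ring

theorem d15 : S15.d = 10 := by simp only [S15, Co.d]; norm_num

theorem even15 (v : V) : Even (S15.B v v) := by
  rw [B15]
  exact ⟨2 * v 0 ^ 2 + v 1 ^ 2 + v 2 ^ 2 + v 0 * v 1 + v 0 * v 2 + v 1 * v 2, by ring⟩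

theorem pos15 : S15.Pos := by
  intro v hv
  rw [B15]
  have h : 4 * (v 0 * v 0) + 2 * (v 1 * v 1) + 2 * (v 2 * v 2) +
      (v 0 * v 1 + v 1 * v 0) + (v 0 * v 2 + v 2 * v 0) + (v 1 * v 2 + v 2 * v 1) =
      2 * v 0 ^ 2 + (v 0 + v 1) ^ 2 + (v 0 + v 2) ^ 2 + (v 1 + v 2) ^ 2 := by ring
  rw [h]
  by_contra hcon
  push Not at hcon
  have h0 := sq_nonneg (v 0)
  have h1 := sq_nonneg (v 0 + v 1)
  have h2 := sq_nonneg (v 0 + v 2)
  have h3 := sq_nonneg (v 1 + v 2)
  have e0 : v 0 = 0 := pow_eq_zero_iff (two_ne_zero) |>.1 (by linarith)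
  have e1 : v 0 + v 1 = 0 := pow_eq_zero_iff (two_ne_zero) |>.1 (by linarith)
  have e2 : v 0 + v 2 = 0 := pow_eq_zero_iff (two_ne_zero) |>.1 (by linarith)
  exact hv (ext3 e0 (by show v 1 = 0; linarith) (by show v 2 = 0; linarith))

/-- vectors with a given Gram matrix -/
def Rep (a b c p q r : ℤ) : Prop := ∃ x y z : V, S15.B x x = 2 * a ∧ S15.B x y = b ∧
  S15.B y y = 2 * c ∧ S15.B x z = p ∧ S15.B y z = q ∧ S15.B z z = 2 * r

theorem B_add_left (x y z : V) (t : ℤ) : S15.B (x + t • y) z = S15.B x z + t * S15.B y z := by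
  simp only [Co.B, Pi.add_apply, Pi.smul_apply, smul_eq_mul]; ring

theorem B_add_right (x y z : V) (t : ℤ) : S15.B z (x + t • y) = S15.B z x + t * S15.B z y := by
  simp only [Co.B, Pi.add_apply, Pi.smul_apply, smul_eq_mul]; ring

theorem Rep.shear12 {a b c p q r : ℤ} (t : ℤ)
    (h : Rep a (b - t * (2 * a)) (c - t * b + t ^ 2 * a) p (q - t * p) r) : Rep a b c p q r := by
  obtain ⟨x, y, z, h1, h2, h3, h4, h5, h6⟩ := h
  refine ⟨x, y + t • x, z, h1, ?_, ?_, h4, ?_, h6⟩
  · rw [B_add_right, h1, h2]; ring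
  · rw [B_add_right, B_add_left, B_add_left, S15.B_comm y x, h1, h2, h3]; ring
  · rw [B_add_left, h4, h5]; ring

theorem Rep.shear13 {a b c p q r : ℤ} (t : ℤ)
    (h : Rep a b c (p - t * (2 * a)) (q - t * b) (r - t * p + t ^ 2 * a)) : Rep a b c p q r := by
  obtain ⟨x, y, z, h1, h2, h3, h4, h5, h6⟩ := h
  refine ⟨x, y, z + t • x, h1, h2, h3, ?_, ?_, ?_⟩
  · rw [B_add_right, h1, h4]; ring
  · rw [B_add_right, S15.B_comm y x, h2, h5]; ring
  · rw [B_add_right, B_add_left, B_add_left, S15.B_comm z x, h1, h4, h6]; ring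

theorem Rep.shear23 {a b c p q r : ℤ} (s : ℤ)
    (h : Rep a b c (p - s * b) (q - s * (2 * c)) (r - s * q + s ^ 2 * c)) : Rep a b c p q r := by
  obtain ⟨x, y, z, h1, h2, h3, h4, h5, h6⟩ := h
  refine ⟨x, y, z + s • y, h1, h2, h3, ?_, ?_, ?_⟩
  · rw [B_add_right, h2, h4]; ring
  · rw [B_add_right, h3, h5]; ring
  · rw [B_add_right, B_add_left, B_add_left, S15.B_comm z y, h3, h5, h6]; ring

theorem Rep.swap12 {a b c p q r : ℤ} (h : Rep c b a q p r) : Rep a b c p q r := by
  obtain ⟨x, y, z, h1, h2, h3, h4, h5, h6⟩ := h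
  exact ⟨y, x, z, h3, by rw [S15.B_comm, h2], h1, h5, h4, h6⟩

theorem Rep.swap23 {a b c p q r : ℤ} (h : Rep a p r b q c) : Rep a b c p q r := by
  obtain ⟨x, y, z, h1, h2, h3, h4, h5, h6⟩ := h
  exact ⟨x, z, y, h1, h4, h6, h2, by rw [S15.B_comm, h5], h3⟩

/-- rounding -/
theorem exists_round (u v : ℤ) (hv : 0 < v) : ∃ t : ℤ, -v ≤ 2 * (u - t * v) ∧
    2 * (u - t * v) ≤ v := by
  have h := Int.emod_add_mul_ediv (2 * u + v) (2 * v)
  have h2 := Int.emod_lt_of_pos (2 * u + v) (by linarith : 0 < 2 * v)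
  have h1 := Int.emod_nonneg (2 * u + v) (by linarith : 2 * v ≠ 0)
  generalize (2 * u + v) % (2 * v) = r at *
  generalize (2 * u + v) / (2 * v) = q at *
  exact ⟨q, by linarith, by linarith⟩

theorem rep_of (N : ℕ) : ∀ a b c p q r : ℤ, 0 < a → 0 < 4 * a * c - b ^ 2 →
    4 * a * c * r + b * p * q - a * q ^ 2 - c * p ^ 2 - r * b ^ 2 = 5 →
    a + (4 * a * c - b ^ 2) ≤ N → Rep a b c p q r := by
  induction N with
  | zero =>
    intro a b c p q r ha hD _ hN
    exfalso
    push_cast at hN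
    linarith
  | succ N ih =>
    intro a b c p q r ha hD hdet hN
    push_cast at hN
    obtain ⟨t, ht1, ht2⟩ := exists_round b (2 * a) (by linarith)
    apply Rep.shear12 t
    obtain ⟨b', hb'⟩ : ∃ b', b' = b - t * (2 * a) := ⟨_, rfl⟩
    obtain ⟨c', hc'⟩ : ∃ c', c' = c - t * b + t ^ 2 * a := ⟨_, rfl⟩
    obtain ⟨q', hq'⟩ : ∃ q', q' = q - t * p := ⟨_, rfl⟩
    rw [← hb', ← hc', ← hq']
    rw [← hb'] at ht1 ht2
    have hD' : 4 * a * c' - b' ^ 2 = 4 * a * c - b ^ 2 := by rw [hc', hb']; ring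
    have hdet' : 4 * a * c' * r + b' * p * q' - a * q' ^ 2 - c' * p ^ 2 - r * b' ^ 2 = 5 := by
      rw [← hdet, hc', hb', hq']; ring
    rw [← hD'] at hD hN
    have hb2 : b' ^ 2 ≤ a ^ 2 := by nlinarith
    have hc'0 : 0 < c' := by
      by_contra hcon
      push Not at hcon
      nlinarith [sq_nonneg b']
    by_cases hlt : c' < a
    · apply Rep.swap12
      apply ih c' b' a q' p r hc'0 (by linarith) (by linarith)
      have : 4 * c' * a - b' ^ 2 = 4 * a * c' - b' ^ 2 := by ring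
      rw [this]
      linarith
    push Not at hlt
    obtain ⟨D, hDD⟩ : ∃ D, D = 4 * a * c' - b' ^ 2 := ⟨_, rfl⟩
    rw [← hDD] at hD hN
    have h34 : 3 * a ^ 2 ≤ D := by nlinarith
    obtain ⟨s, hs1, hs2⟩ := exists_round (2 * a * q' - b' * p) D hD
    apply Rep.shear23 s
    obtain ⟨p2, hp2⟩ : ∃ p2, p2 = p - s * b' := ⟨_, rfl⟩
    obtain ⟨q2, hq2⟩ : ∃ q2, q2 = q' - s * (2 * c') := ⟨_, rfl⟩
    obtain ⟨r2, hr2⟩ : ∃ r2, r2 = r - s * q' + s ^ 2 * c' := ⟨_, rfl⟩
    rw [← hp2, ← hq2, ← hr2]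
    have hdet2 : 4 * a * c' * r2 + b' * p2 * q2 - a * q2 ^ 2 - c' * p2 ^ 2 - r2 * b' ^ 2 = 5 := by
      rw [← hdet', hp2, hq2, hr2]; ring
    obtain ⟨K, hK⟩ : ∃ K, K = 2 * a * q2 - b' * p2 := ⟨_, rfl⟩
    have hK2 : K = 2 * a * q' - b' * p - s * D := by rw [hK, hq2, hp2, hDD]; ring
    rw [← hK2] at hs1 hs2
    have hKK : 4 * K ^ 2 ≤ D ^ 2 := by nlinarith
    have hid : D * (4 * a * r2 - p2 ^ 2) = K ^ 2 + 20 * a := by
      have : K ^ 2 + 4 * a * (4 * a * c' * r2 + b' * p2 * q2 - a * q2 ^ 2 - c' * p2 ^ 2 -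
          r2 * b' ^ 2) = D * (4 * a * r2 - p2 ^ 2) := by
        rw [hK, hDD]; ring
      rw [← this, hdet2]; ring
    have hE : 0 < 4 * a * r2 - p2 ^ 2 := by
      by_contra hcon
      push Not at hcon
      nlinarith [sq_nonneg K]
    by_cases hlt2 : 4 * a * r2 - p2 ^ 2 < D
    · apply Rep.swap23
      apply ih a p2 r2 b' q2 c' ha hE (by linarith)
      linarith
    push Not at hlt2
    have h36 : D * D ≤ K ^ 2 + 20 * a := by
      rw [← hid]
      exact mul_le_mul_of_nonneg_left hlt2 hD.le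
    have h35 : 3 * (D * D) ≤ 80 * a := by
      rw [pow_two D] at hKK
      linarith
    have ha1 : a = 1 := by
      by_contra hne
      have ha2 : 2 ≤ a := by omega
      have h37 : 2 * a ≤ a ^ 2 := by
        rw [pow_two]
        exact mul_le_mul_of_nonneg_right ha2 ha.le
      have h38 : 6 * a ≤ D := by linarith
      have h39 : (6 * a) * (6 * a) ≤ D * D := mul_self_le_mul_self (by linarith) h38
      nlinarith
    subst ha1
    have hD5 : D ≤ 5 := by
      by_contra hne
      have h2 : 6 ≤ D := by omega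
      nlinarith
    have hbb : b' = -1 ∨ b' = 0 ∨ b' = 1 := by
      have h1 : -1 ≤ b' := by linarith
      have h2 : b' ≤ 1 := by linarith
      omega
    have hc1 : c' = 1 := by
      rcases hbb with rfl | rfl | rfl <;> · norm_num at hDD; omega
    subst hc1
    -- the possible values of `K`
    have hq4 : ∀ x : ℤ, x ^ 2 % 4 = 0 ∨ x ^ 2 % 4 = 1 := by
      intro x
      rcases Int.even_or_odd x with ⟨k, hk⟩ | ⟨k, hk⟩
      · left
        have : x ^ 2 = 4 * k ^ 2 := by rw [hk]; ring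
        omega
      · right
        have : x ^ 2 = 4 * (k ^ 2 + k) + 1 := by rw [hk]; ring
        omega
    have hpq := hq4 p2
    have fin : ∀ b q : ℤ, (b = 1 ∧ (q = 1 ∨ q = 0)) ∨ (b = -1 ∧ (q = 0 ∨ q = -1)) →
        Rep 1 b 1 1 q 2 := by
      rintro b q (⟨rfl, rfl | rfl⟩ | ⟨rfl, rfl | rfl⟩)
      · exact ⟨![0, -1, 0], ![0, -1, 1], ![1, -1, 0], by simp [B15]; try norm_num,
          by simp [B15]; try norm_num, by simp [B15]; try norm_num, by simp [B15]; try norm_num,
          by simp [B15]; try norm_num, by simp [B15]; try norm_num⟩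
      · exact ⟨![0, -1, 0], ![0, -1, 1], ![-1, 0, 0], by simp [B15]; try norm_num,
          by simp [B15]; try norm_num, by simp [B15]; try norm_num, by simp [B15]; try norm_num,
          by simp [B15]; try norm_num, by simp [B15]; try norm_num⟩
      · exact ⟨![0, -1, 0], ![0, 0, 1], ![1, -1, 0], by simp [B15]; try norm_num,
          by simp [B15]; try norm_num, by simp [B15]; try norm_num, by simp [B15]; try norm_num,
          by simp [B15]; try norm_num, by simp [B15]; try norm_num⟩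
      · exact ⟨![0, -1, 0], ![0, 0, 1], ![-1, 0, 0], by simp [B15]; try norm_num,
          by simp [B15]; try norm_num, by simp [B15]; try norm_num, by simp [B15]; try norm_num,
          by simp [B15]; try norm_num, by simp [B15]; try norm_num⟩
    -- the final step
    have last : D = 3 → Rep 1 b' 1 p2 q2 r2 := by
      intro hD3
      have hK1 : K = -1 ∨ K = 0 ∨ K = 1 := by omega
      rw [hD3] at hid
      have hK0 : K ≠ 0 := by
        rintro h0
        rw [h0] at hid
        omega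
      have hKsq : K ^ 2 = 1 := by
        rcases hK1 with h | h | h
        · rw [h]; norm_num
        · exact absurd h hK0
        · rw [h]; norm_num
      rw [hKsq] at hid
      have h7 : 4 * r2 - p2 ^ 2 = 7 := by linarith
      obtain ⟨k, hk⟩ : Odd p2 := by
        rcases Int.even_or_odd p2 with ⟨k, hk⟩ | h
        · exfalso
          have : p2 ^ 2 = 4 * k ^ 2 := by rw [hk]; ring
          omega
        · exact h
      apply Rep.shear13 k
      have e1 : p2 - k * (2 * 1) = 1 := by rw [hk]; ring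
      have e2 : r2 - k * p2 + k ^ 2 * 1 = 2 := by
        have : 4 * (r2 - k * p2 + k ^ 2 * 1) = 8 := by
          rw [hk] at h7 ⊢
          linear_combination h7
        omega
      rw [e1, e2]
      apply fin
      have e3 : 2 * (q2 - k * b') = K + b' := by
        rw [hK, hk]; ring
      rcases hbb with h | h | h
      · right
        refine ⟨h, ?_⟩
        rw [h] at e3 ⊢
        rcases hK1 with h' | h' | h'
        · right; omega
        · exact absurd h' hK0
        · left; omega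
      · exfalso
        rw [h] at hDD
        norm_num at hDD
        omega
      · left
        refine ⟨h, ?_⟩
        rw [h] at e3 ⊢
        rcases hK1 with h' | h' | h'
        · right; omega
        · exact absurd h' hK0
        · left; omega
    rcases hbb with h | h | h
    · exact last (by rw [hDD, h]; norm_num)
    · exfalso
      subst h
      have hD4 : D = 4 := by rw [hDD]; norm_num
      rw [hD4] at hid hs1 hs2
      have hK3 : K = 2 * q2 := by rw [hK]; ring
      have hq2b : q2 = -1 ∨ q2 = 0 ∨ q2 = 1 := by omega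
      rw [hK3] at hid
      rcases hq2b with h | h | h <;> rw [h] at hid <;> omega
    · exact last (by rw [hDD, h]; norm_num)

end Pool.Agent.N877.P15
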